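import Pool.Agent.Mg.F76d60e.Gf766f6

set_option autoImplicit false

namespace Pool.Agent.Results.MP_76d60e_lc.PetersenFive

open Pool.Agent.MP_76d60e_lc Filter Topology

/-- The Petersen graph is connected, not Hamiltonian, and has `f = 10 / 2`. -/
theorem result :
    petersen.Connected ∧ ¬ petersen.IsHamiltonian ∧
      ∀ static allKnow : Bool,
        Tendsto (fun n : ℕ => (minBits petersen static allKnow n : ℝ) / n) atTop
          (𝓝 ((Fintype.card (Fin 10) : ℝ) / 2)) :=
  ⟨petersen_connected, petersen_not_ham, fun static allKnow => by
    simpa using tendsto_minBits static allKnow⟩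

end Pool.Agent.Results.MP_76d60e_lc.PetersenFive
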